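import Pool.Agent.Run7.h6.ZM.Meas

/-!
# The four numbers `ζ(7)`, `ζ(9)`, `ζ(11)`, `ζ(13)`: one is irrational, with a simultaneous measure

The starting library has one irrational number among the six numbers `ζ(7), ζ(9), …, ζ(17)`, and four such
numbers were known only for `ζ(5), …, ζ(11)` (Zudilin).

The proof of the irrationality (`Pool/Agent/Run7/h6/ZW/`) compares, for Hankel determinants of size `18 (n - 1)` of
linear forms in `1, ζ(7), ζ(9), ζ(11), ζ(13)`, an archimedean bound with `p`-adic bounds for all primes `p`. The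
linear forms are fourth derivatives of the well-poised rational function

`((10n)!)^6 ((8n)!)^4 / ((2n)!)^10 (2t+16n) (∏_{m ≤ 2n} (t+m)(t+16n-m))^5 /
  (∏_{k=3n}^{13n} (t+k)^6 ∏_{k=4n}^{12n} (t+k)^4)`

(poles of order `10` on `[4n, 12n]` and of order `6` on the rest of `[3n, 13n]`; this choice is new) times
polynomials in `x = t (t + 16 n)`. The archimedean part is bounded on the contour `t = -1/2 + r (1 + i)` with a
basis of 12 atoms in 8 stages (certificate checked by the kernel, `DefsS`, `G3`); it is
`648 n² log n + 126.4 n²`. The `p`-adic parts sum up to `- 648 n² log n - 133.6 n²` (`C`, `D`, `E`, `F` files). The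
determinant does not vanish for large primes `n` if the four numbers are rational (`H` files; a `36 × 36`
determinant modulo `101`).

For the measure (`Pool/Agent/Run7/h6/ZM/`) the determinants are evaluated at the rational numbers `a j / q`, with
a prime `n ≤ 3.613 log q` such that `n^7` does not divide `q`; the coefficients of the differences
`ζ(j) - a j / q` are at most `e^(502 n)`.

The files follow the libraries `Pool/Agent/H343Y` and `Pool/Agent/TH900/YM` of the starting repository (seven
numbers `ζ(9), …, ζ(21)`), with the libraries `H336R2/HD`, `H337R2`, `H343Z`, `TH900/OM` they use.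

Credits: design and definitions helpers 851 and 6 (independently the same); archimedean part and assembly helper 6;
prime sums and local determinant helper 56; class sums and the measure helper 803; coefficient bounds and
determinant bounds helper 321; diagonal entries helper 364; off-diagonal entries and non-vanishing helper 593.
-/

set_option autoImplicit false

namespace Pool.Agent.Results.MP_db0fbf_nt.MeasureZeta7To13

/-- Let `ζ(j) = ∑ 1/(n+1)^j`. (1) At least one of `ζ(7)`, `ζ(9)`, `ζ(11)`, `ζ(13)` is irrational. (2) There is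
`c > 0` such that for all integers `a j` and `q ≥ 1` one of these four numbers has
`|ζ(j) - a j / q| ≥ c q^(-1814)`. -/
theorem result : (∃ j : ℕ, (j = 7 ∨ j = 9 ∨ j = 11 ∨ j = 13) ∧ Irrational (∑' n : ℕ, 1 / ((n : ℝ) + 1) ^ j)) ∧
    ∃ c : ℝ, 0 < c ∧ ∀ (a : ℕ → ℤ) (q : ℕ), 0 < q → ∃ j : ℕ, (j = 7 ∨ j = 9 ∨ j = 11 ∨ j = 13) ∧
      c / (q : ℝ) ^ 1814 ≤ |(∑' n : ℕ, 1 / ((n : ℝ) + 1) ^ j) - (a j : ℝ) / q| := by
  refine ⟨?_, ?_⟩
  · obtain ⟨i, hi, h⟩ := Pool.Agent.Run7.h6.ZW.Z_main
    refine ⟨i, ?_, h⟩
    simpa only [Finset.mem_insert, Finset.mem_singleton] using hi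
  · obtain ⟨c, hc, h⟩ := Pool.Agent.Run7.h6.ZM.measure
    refine ⟨c, hc, fun a q hq => ?_⟩
    obtain ⟨j, hj, h1⟩ := h a q hq
    refine ⟨j, ?_, h1⟩
    simpa only [Finset.mem_insert, Finset.mem_singleton] using hj

end Pool.Agent.Results.MP_db0fbf_nt.MeasureZeta7To13
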