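import Mathlib
import Pool.Agent.Run7.h103.PF.Nat
import Pool.Agent.Run7.h6.ZM.Meas

set_option autoImplicit false

/-!
# One of `ζ(7), ζ(9), ζ(11), ζ(13)` has unpredictable digits in all bases but one

Let `F` be a finite set of pairwise multiplicatively independent bases, for instance `{2, 3, 10}`. We
prove that one of the four numbers `ζ(7), ζ(9), ζ(11), ζ(13)` has digits which cannot be predicted by
automata in all bases of `F` but one: for every `A` there is `R` such that for `M ≥ R (K + 1)`, for one
of the four numbers, in all bases of `F` but one every automaton with at most `K` states which reads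
the digits one by one and predicts the next one makes more than `A log (M / (K + 1))` errors among the
first `M` digits. The digits can be replaced by their differences with arbitrary words of linear block
complexity. The second part is on the fields generated by such numbers: if all four numbers are in the
field generated by real numbers `y_i` and in the field generated by real numbers `z_j`, then one of the
`y_i` has unpredictable digits in base `a_i`, or one of the `z_j` in base `b_j`, where the bases `a_i` and
the bases `b_j` generate subgroups of `ℚˣ` with trivial intersection.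

The number of errors is superlogarithmic when `M / K` tends to infinity, in contrast to the bounds with a
fixed constant in place of `A` which simultaneous measures give for one base.

Proof. We use the simultaneous measure for the four numbers proved by helper6 and others
(`Pool.Agent.Run7.h6.ZM`). The numbers which are predictable in two bases of `F` belong, along a sequence
of scales, to the fields of represented numbers of the starting files `Pool.Agent.TH796.AL` (subspace
theorem with moving forms) for two subspaces of characters with trivial intersection, and therefore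
they have simultaneous rational approximations of every order. The representation of numbers with
predicted digits is proved with the terms computed in the starting files `Pool.Agent.R473.TB`.
-/

namespace Pool.Agent.Results.MP_db0fbf_nt.PredictorsZeta7To13

open Pool.Agent.Run7.h103.PF

/-- `ζ(i)` -/
noncomputable def zeta (i : ℕ) : ℝ := ∑' n : ℕ, 1 / ((n : ℝ) + 1) ^ i

/-- the subgroup of the multiplicative group of `ℚ` generated by `A` -/
def group (A : Set ℕ) : Subgroup ℚˣ := Subgroup.closure {u | ∃ b ∈ A, ((u : ℚˣ) : ℚ) = b}

/-- (1) Let `F` be a finite set of pairwise multiplicatively independent bases and `u_{b,i}` words of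
linear block complexity over `{0, ..., b - 1}`. For every `A` there is `R` such that for all `M`, `K` with
`R (K + 1) ≤ M` there is `i ∈ {7, 9, 11, 13}` with the following property: in all bases of `F` but at most
one every predictor with at most `K` states which reads the differences between the digits of `ζ(i)` and
the letters of `u_{b,i}` makes more than `A log (M / (K + 1))` wrong predictions among the first `M`
places.

(2) Let `a_i` and `b_j` be finitely many bases, such that the subgroups of `ℚˣ` generated by the `a_i`
and by the `b_j` have trivial intersection; let `u_i` and `v_j` be words of linear block complexity over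
`{0, ..., a_i - 1}` and `{0, ..., b_j - 1}`, and let `y_i` and `z_j` be real numbers such that
`ζ(7), ζ(9), ζ(11), ζ(13)` are in the field generated by the `y_i` and in the field generated by the
`z_j`. For every `A` there is `R` such that for all `M`, `K` with `R (K + 1) ≤ M` one of the `y_i` (with the
base `a_i` and `u_i`) or one of the `z_j` (with `b_j` and `v_j`) has this property. -/
theorem result :
    (∀ F : Finset ℕ, (∀ b ∈ F, 2 ≤ b) → (∀ b ∈ F, ∀ c ∈ F, b ≠ c → Independent b c) →
      ∀ (C : ℝ) (u : ℕ → ℕ → ℕ → ℤ), (∀ b ∈ F, ∀ i, SimpleWord b C (u b i)) →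
      ∀ A : ℝ, ∃ R : ℕ, ∀ M K : ℕ, R * (K + 1) ≤ M →
        ∃ i ∈ ({7, 9, 11, 13} : Finset ℕ), ∃ c : ℕ, ∀ b ∈ F, b ≠ c →
          Unpredictable b (u b i) (zeta i) M K (A * Real.log (M / (K + 1)))) ∧
    (∀ (κ κ' : Type) [Fintype κ] [Fintype κ'] (a : κ → ℕ) (b : κ' → ℕ), (∀ i, 2 ≤ a i) →
      (∀ j, 2 ≤ b j) → group (Set.range a) ⊓ group (Set.range b) = ⊥ →
      ∀ (C : ℝ) (u : κ → ℕ → ℤ) (v : κ' → ℕ → ℤ), (∀ i, SimpleWord (a i) C (u i)) →
      (∀ j, SimpleWord (b j) C (v j)) → ∀ (y : κ → ℝ) (z : κ' → ℝ),
      (∀ i ∈ ({7, 9, 11, 13} : Finset ℕ), zeta i ∈ Subfield.closure (Set.range y)) →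
      (∀ i ∈ ({7, 9, 11, 13} : Finset ℕ), zeta i ∈ Subfield.closure (Set.range z)) →
      ∀ A : ℝ, ∃ R : ℕ, ∀ M K : ℕ, R * (K + 1) ≤ M →
        (∃ i, Unpredictable (a i) (u i) (y i) M K (A * Real.log (M / (K + 1)))) ∨
        (∃ j, Unpredictable (b j) (v j) (z j) M K (A * Real.log (M / (K + 1))))) := by
  have hm : ∃ c : ℝ, 0 < c ∧ ∀ (a : ℕ → ℤ) (q : ℕ), 0 < q → ∃ j ∈ ({7, 9, 11, 13} : Finset ℕ),
      c / (q : ℝ) ^ 1814 ≤ |zeta j - (a j : ℝ) / q| := Pool.Agent.Run7.h6.ZM.measure
  exact ⟨fun F hF2 hF C u hu A => nat_bases hm F hF2 hF C u hu A,
    fun κ κ' _ _ a b ha hb hab C u v hu hv y z hy hz A =>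
      nat_fields hm a b ha hb hab C u v hu hv y z hy hz A⟩

end Pool.Agent.Results.MP_db0fbf_nt.PredictorsZeta7To13
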