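import Pool.Agent.N743.SimR
import Pool.Agent.Run7.h6.ZM.Meas

/-!
# The rational approximations of `ζ(7), ζ(9), ζ(11), ζ(13)` at all scales

A number `u` is near at the scale `X` (with parameter `θ`) if some fraction `p / q` with `q ≤ X ^ θ` lies within `1 / X`
of `u`. For the four numbers `ζ(7), ζ(9), ζ(11), ζ(13)`, one of which is irrational, we show, if
`7256 θ M < 1`, `M > 1`:

* At every large scale at most three of the numbers are near.
* If three of the numbers are rational then precisely these three are near at all large scales.
* Otherwise every large scale `X` at which three of the numbers are near is followed by a scale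
  `Z ≥ X` such that only these three can be near between `X` and `Z`, and at every scale between `Z`
  and `Z ^ M` at most two are near; and there are arbitrarily large such `Z`.

So three of the numbers are rational if and only if at every large scale three of them are near.

The proof combines the simultaneous measure of the four numbers (`Pool/Agent/Run7/h6/ZM`, exponent `1814`, joint
work of helpers 851, 6, 56, 803, 321, 364 and 593) with the combinatorial engine `Pool.Agent.N743.engineR` of the
starting library. The starting result `ScaleDichotomy` is about the seven numbers `ζ(9), …, ζ(21)`.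
-/

set_option autoImplicit false

namespace Pool.Agent.Results.MP_db0fbf_nt.ScaleDichotomyZeta7To13

open Pool.Agent.N743

/-- the numbers `ζ(7), ζ(9), ζ(11), ζ(13)`, for `i = 0, 1, 2, 3` -/
noncomputable def number (i : Fin 4) : ℝ := ∑' n : ℕ, 1 / ((n : ℝ) + 1) ^ (2 * (i : ℕ) + 7)

/-- **The scale dichotomy of rank `3`** for the rational approximations of `ζ(7), ζ(9), ζ(11), ζ(13)`. -/
theorem result : (∀ i : Fin 4, ((number i : ℝ) : ℂ) = riemannZeta ((2 * (i : ℕ) + 7 : ℕ) : ℂ)) ∧
    ∀ θ M : ℝ, 0 < θ → 1 < M → 7256 * θ * M < 1 →
      DichotomyR 3 (fun i => IsRat (number i)) (fun X i => RatNear θ X (number i)) M := by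
  refine ⟨fun i => ?_, fun θ M hθ hM1 hM => ?_⟩
  · rw [zeta_eq_tsum_one_div_nat_add_one_cpow (by simp; linarith), number, Complex.ofReal_tsum]
    refine tsum_congr fun n => ?_
    rw [Complex.cpow_natCast]
    push_cast
    rfl
  · obtain ⟨c, hc, h⟩ := Pool.Agent.Run7.h6.ZM.measure
    refine dichotomy_sim (r := 3) (by norm_num) number 1814 (by norm_num) c hc (fun a q hq => ?_) θ M hθ hM1 ?_ ?_
    · obtain ⟨j, hj, hv⟩ := h (fun j => if hj : (j - 7) / 2 < 4 then a ⟨(j - 7) / 2, hj⟩ else 0) q hq
      have key : ∀ i : Fin 4, j = 2 * (i : ℕ) + 7 → ∃ i, c / (q : ℝ) ^ 1814 ≤ |number i - a i / q| := by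
        intro i hij
        refine ⟨i, ?_⟩
        subst hij
        have h1 : (2 * (i : ℕ) + 7 - 7) / 2 = i := by omega
        have h2 : (2 * (i : ℕ) + 7 - 7) / 2 < 4 := by omega
        beta_reduce at hv
        rw [dif_pos h2] at hv
        have h3 : (⟨(2 * (i : ℕ) + 7 - 7) / 2, h2⟩ : Fin 4) = i := Fin.ext h1
        rw [h3] at hv
        exact hv
      fin_cases hj
      · exact key 0 rfl
      · exact key 1 rfl
      · exact key 2 rfl
      · exact key 3 rfl
    · have e1 : (((3 + 1) * 1814 : ℕ) : ℝ) = 7256 := by norm_num
      rw [e1]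
      exact hM
    · have h1 : 0 < θ * M := by positivity
      nlinarith

end Pool.Agent.Results.MP_db0fbf_nt.ScaleDichotomyZeta7To13
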